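import Pool.Agent.H97.NR.Stmts

set_option linter.unusedVariables false

/-! Common lemmas for the modules S4A S4B S5A S5B S5I R5A R5I of project NR. -/

namespace Pool.NR.H7Com

universe u

variable {p : ℕ} [Fact p.Prime] {R : Type u} [NonUnitalRing R]

theorem zs_eq {z : R} (hz : (p : ℤ) • z = 0) {a b : ℤ} (h : (a : ZMod p) = (b : ZMod p)) :
    a • z = b • z := by
  rw [ZMod.intCast_eq_intCast_iff_dvd_sub] at h
  obtain ⟨c, hc⟩ := h
  have : b = a + c * p := by rw [← sub_eq_iff_eq_add']; rw [hc]; ring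
  rw [this, add_smul, mul_smul, hz, smul_zero, add_zero]

theorem valc (a : ZMod p) : (((a.val : ℕ) : ℤ) : ZMod p) = a := by
  rw [Int.cast_natCast, ZMod.natCast_zmod_val]

theorem rep {g : Fin 4 → R} (hg : AddSubgroup.closure (Set.range g) = ⊤) (r : R) :
    ∃ a b c d : ℤ, r = a • g 0 + b • g 1 + c • g 2 + d • g 3 := by
  have hr : r ∈ AddSubgroup.closure (Set.range g) := by rw [hg]; trivial
  induction hr using AddSubgroup.closure_induction with
  | mem x hx =>
    obtain ⟨i, rfl⟩ := hx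
    fin_cases i
    · exact ⟨1, 0, 0, 0, by simp⟩
    · exact ⟨0, 1, 0, 0, by simp⟩
    · exact ⟨0, 0, 1, 0, by simp⟩
    · exact ⟨0, 0, 0, 1, by simp⟩
  | zero => exact ⟨0, 0, 0, 0, by simp⟩
  | add x y _ _ hx hy =>
    obtain ⟨a, b, c, d, rfl⟩ := hx
    obtain ⟨a', b', c', d', rfl⟩ := hy
    exact ⟨a + a', b + b', c + c', d + d', by module⟩
  | neg x _ hx =>
    obtain ⟨a, b, c, d, rfl⟩ := hx
    exact ⟨-a, -b, -c, -d, by module⟩

/-- consequences of `BASStmt`, in terms of four integers -/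
theorem bas (hb : BASStmt.{u}) {T : Tab} (hc : Nat.card R = p ^ 4) (hT : TabUp T) {g : Fin 4 → R}
    (hg : AddSubgroup.closure (Set.range g) = ⊤) (hP : ∀ i, p • g i = ∑ j, T.P i j • g j)
    {a b c d : ℤ} (h : a • g 0 + b • g 1 + c • g 2 + d • g 3 = 0) :
    ∃ c0 c1 c2 c3 : ℤ, a = p * c0 ∧ b = p * c1 - c0 * (T.P 0 1 : ℤ) ∧
      c = p * c2 - c0 * (T.P 0 2 : ℤ) - c1 * (T.P 1 2 : ℤ) ∧
      d = p * c3 - c0 * (T.P 0 3 : ℤ) - c1 * (T.P 1 3 : ℤ) - c2 * (T.P 2 3 : ℤ) := by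
  have h1 : ∑ i, (![a, b, c, d] : Fin 4 → ℤ) i • g i = 0 := by
    rw [Fin.sum_univ_four]
    exact h
  obtain ⟨n, hn⟩ := hb p R T hc hT g hg hP _ h1
  have e : ∀ i j : Fin 4, j ≤ i → (T.P i j : ℤ) = 0 := fun i j hij => by
    rw [hT i j hij]; rfl
  refine ⟨n 0, n 1, n 2, n 3, ?_, ?_, ?_, ?_⟩
  · have := hn 0
    rw [Fin.sum_univ_four, e 0 0 (by decide), e 1 0 (by decide), e 2 0 (by decide),
      e 3 0 (by decide)] at this
    simpa using this
  · have := hn 1
    rw [Fin.sum_univ_four, e 1 1 (by decide), e 2 1 (by decide),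
      e 3 1 (by decide)] at this
    simpa using this
  · have := hn 2
    rw [Fin.sum_univ_four, e 2 2 (by decide), e 3 2 (by decide)] at this
    have h' : c = p * n 2 - (n 0 * (T.P 0 2 : ℤ) + n 1 * (T.P 1 2 : ℤ) + n 2 * 0 + n 3 * 0) := this
    rw [h']; ring
  · have := hn 3
    rw [Fin.sum_univ_four, e 3 3 (by decide)] at this
    have h' : d = p * n 3 - (n 0 * (T.P 0 3 : ℤ) + n 1 * (T.P 1 3 : ℤ) + n 2 * (T.P 2 3 : ℤ) + n 3 * 0) := this
    rw [h']; ring

theorem ppos : (p : ℤ) ≠ 0 := by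
  have := (Fact.out : p.Prime).ne_zero
  exact_mod_cast this

/-- leading coefficients of relations are divisible by `p` -/
theorem lead3 (hb : BASStmt.{u}) {T : Tab} (hc : Nat.card R = p ^ 4) (hT : TabUp T) {g : Fin 4 → R}
    (hg : AddSubgroup.closure (Set.range g) = ⊤) (hP : ∀ i, p • g i = ∑ j, T.P i j • g j)
    {d : ℤ} (h : d • g 3 = 0) : (d : ZMod p) = 0 := by
  obtain ⟨c0, c1, c2, c3, h0, h1, h2, h3⟩ := bas hb hc hT hg hP
    (a := 0) (b := 0) (c := 0) (d := d) (by simpa using h)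
  have e0 : c0 = 0 := by
    rcases mul_eq_zero.1 h0.symm with h | h
    · exact absurd h ppos
    · exact h
  subst e0
  have e1 : c1 = 0 := by
    have : (p : ℤ) * c1 = 0 := by linarith
    rcases mul_eq_zero.1 this with h | h
    · exact absurd h ppos
    · exact h
  subst e1
  have e2 : c2 = 0 := by
    have : (p : ℤ) * c2 = 0 := by linarith
    rcases mul_eq_zero.1 this with h | h
    · exact absurd h ppos
    · exact h
  subst e2
  rw [ZMod.intCast_zmod_eq_zero_iff_dvd]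
  exact ⟨c3, by linarith⟩

theorem lead2 (hb : BASStmt.{u}) {T : Tab} (hc : Nat.card R = p ^ 4) (hT : TabUp T) {g : Fin 4 → R}
    (hg : AddSubgroup.closure (Set.range g) = ⊤) (hP : ∀ i, p • g i = ∑ j, T.P i j • g j)
    {c d : ℤ} (h : c • g 2 + d • g 3 = 0) :
    ∃ c2 c3 : ℤ, c = p * c2 ∧ d = p * c3 - c2 * (T.P 2 3 : ℤ) := by
  obtain ⟨c0, c1, c2, c3, h0, h1, h2, h3⟩ := bas hb hc hT hg hP
    (a := 0) (b := 0) (c := c) (d := d) (by simpa using h)
  have e0 : c0 = 0 := by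
    rcases mul_eq_zero.1 h0.symm with h | h
    · exact absurd h ppos
    · exact h
  subst e0
  have e1 : c1 = 0 := by
    have : (p : ℤ) * c1 = 0 := by linarith
    rcases mul_eq_zero.1 this with h | h
    · exact absurd h ppos
    · exact h
  subst e1
  exact ⟨c2, c3, by linarith, by linarith⟩

theorem lead1 (hb : BASStmt.{u}) {T : Tab} (hc : Nat.card R = p ^ 4) (hT : TabUp T) {g : Fin 4 → R}
    (hg : AddSubgroup.closure (Set.range g) = ⊤) (hP : ∀ i, p • g i = ∑ j, T.P i j • g j)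
    {b c d : ℤ} (h : b • g 1 + c • g 2 + d • g 3 = 0) :
    ∃ c1 c2 c3 : ℤ, b = p * c1 ∧ c = p * c2 - c1 * (T.P 1 2 : ℤ) ∧
      d = p * c3 - c1 * (T.P 1 3 : ℤ) - c2 * (T.P 2 3 : ℤ) := by
  obtain ⟨c0, c1, c2, c3, h0, h1, h2, h3⟩ := bas hb hc hT hg hP
    (a := 0) (b := b) (c := c) (d := d) (by simpa [add_assoc] using h)
  have e0 : c0 = 0 := by
    rcases mul_eq_zero.1 h0.symm with h | h
    · exact absurd h ppos
    · exact h
  subst e0
  exact ⟨c1, c2, c3, by linarith, by linarith, by linarith⟩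

theorem eq3 (hb : BASStmt.{u}) {T : Tab} (hc : Nat.card R = p ^ 4) (hT : TabUp T) {g : Fin 4 → R}
    (hg : AddSubgroup.closure (Set.range g) = ⊤) (hP : ∀ i, p • g i = ∑ j, T.P i j • g j)
    {a b : ℤ} (h : a • g 3 = b • g 3) : (a : ZMod p) = (b : ZMod p) := by
  have h1 : (a - b) • g 3 = 0 := by rw [sub_smul, h, sub_self]
  have := lead3 hb hc hT hg hP h1
  push_cast at this
  exact sub_eq_zero.1 this

/-- multiples by units generate the same subgroup -/
theorem mem_of_unit {H : AddSubgroup R} {y : R} {n : ℕ} (hn : (p ^ n : ℤ) • y = 0) {u : ℤ}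
    (hu : (u : ZMod p) ≠ 0) (h : u • y ∈ H) : y ∈ H := by
  have hcop : IsCoprime u (p : ℤ) := by
    rw [isCoprime_comm, Prime.coprime_iff_not_dvd (Nat.prime_iff_prime_int.1 Fact.out)]
    rwa [← ZMod.intCast_zmod_eq_zero_iff_dvd]
  obtain ⟨a, b, hab⟩ := hcop.pow_right (n := n)
  have : y = a • (u • y) := by
    have h1 : y = (a * u + b * (p : ℤ) ^ n) • y := by rw [hab, one_smul]
    rw [add_smul, mul_smul b, hn, smul_zero, add_zero, mul_smul] at h1
    exact h1
  rw [this]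
  exact H.zsmul_mem h a

theorem two_cases : ∀ a : ZMod 2, a = 0 ∨ a = 1 := by decide

theorem bit_cases (a : ZMod p) (hp : p = 2) : a = 0 ∨ a = 1 := by
  subst hp
  exact two_cases a

end Pool.NR.H7Com
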