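import Pool.Agent.H7.NR.S5A

set_option linter.unusedVariables false
set_option linter.unusedSimpArgs false
set_option linter.unusedSectionVars false

namespace Pool.NR

universe u

namespace R5A

open H7Com S5A

variable {p : ℕ} [Fact p.Prime] {R : Type u} [NonUnitalRing R]

theorem of_rel {l m n : ZMod p} {g : Fin 4 → R} (H : Rel l m n g)
    (hg : AddSubgroup.closure (Set.range g) = ⊤) : HasTab p R (tab5a l m n) := by
  refine ⟨g, hg, ?_, ?_⟩
  · intro i
    have h0 := H.p0
    have h1 := H.p1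
    have h2 := H.p2
    have h3 := H.p3
    rw [natCast_zsmul] at h0 h1 h2 h3
    rw [natCast_zsmul] at h0 h1 h2
    rw [natCast_zsmul] at h0 h1
    rw [natCast_zsmul] at h0
    fin_cases i
    · simpa [tab5a, Fin.sum_univ_four] using h0
    · simpa [tab5a, Fin.sum_univ_four] using h1
    · simpa [tab5a, Fin.sum_univ_four] using h2
    · simpa [tab5a, Fin.sum_univ_four] using h3
  · intro i j
    fin_cases i <;> fin_cases j
    · simpa [tab5a, Fin.sum_univ_four] using H.m00
    · simpa [tab5a, Fin.sum_univ_four] using H.m01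
    · simpa [tab5a, Fin.sum_univ_four] using H.m02
    · simpa [tab5a, Fin.sum_univ_four] using H.m03
    · simpa [tab5a, Fin.sum_univ_four] using H.m10
    · simpa [tab5a, Fin.sum_univ_four] using H.m11
    · simpa [tab5a, Fin.sum_univ_four] using H.m12
    · simpa [tab5a, Fin.sum_univ_four] using H.m13
    · simpa [tab5a, Fin.sum_univ_four] using H.m20
    · simpa [tab5a, Fin.sum_univ_four] using H.m21
    · simpa [tab5a, Fin.sum_univ_four] using H.m22
    · simpa [tab5a, Fin.sum_univ_four] using H.m23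
    · simpa [tab5a, Fin.sum_univ_four] using H.m30
    · simpa [tab5a, Fin.sum_univ_four] using H.m31
    · simpa [tab5a, Fin.sum_univ_four] using H.m32
    · simpa [tab5a, Fin.sum_univ_four] using H.m33

/-- new generators `x', x'^2, x'^3, x'^4` for `x' = U x + a x^2 + b x^3` -/
theorem change {l m n : ZMod p} {g : Fin 4 → R} (H : Rel l m n g)
    (hg : AddSubgroup.closure (Set.range g) = ⊤) (U a b : ℤ) (hU : (U : ZMod p) ≠ 0)
    (l' m' n' : ZMod p)
    (hp : (p : ℤ) • (U • g 0 + a • g 1 + b • g 2) =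
      (l'.val : ℤ) • ((U * U) • g 1 + (2 * U * a) • g 2 + (2 * U * b + a * a) • g 3) +
      (m'.val : ℤ) • ((U * U * U) • g 2 + (3 * U * U * a) • g 3) +
      (n'.val : ℤ) • ((U * U * U * U) • g 3)) : HasTab p R (tab5a l' m' n') := by
  let k : Fin 4 → R := ![U • g 0 + a • g 1 + b • g 2,
    (U * U) • g 1 + (2 * U * a) • g 2 + (2 * U * b + a * a) • g 3,
    (U * U * U) • g 2 + (3 * U * U * a) • g 3, (U * U * U * U) • g 3]
  have k0 : k 0 = U • g 0 + a • g 1 + b • g 2 := rfl
  have k1 : k 1 = (U * U) • g 1 + (2 * U * a) • g 2 + (2 * U * b + a * a) • g 3 := rfl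
  have k2 : k 2 = (U * U * U) • g 2 + (3 * U * U * a) • g 3 := rfl
  have k3 : k 3 = (U * U * U * U) • g 3 := rfl
  have hp0 : (p : ℤ) • k 0 = (l'.val : ℤ) • k 1 + (m'.val : ℤ) • k 2 + (n'.val : ℤ) • k 3 := hp
  have m00 : k 0 * k 0 = k 1 := by
    rw [k0, k1]
    simp only [mul_add, add_mul, smul_mul_assoc, mul_smul_comm, H.m00, H.m01, H.m02, H.m03, H.m10,
      H.m11, H.m12, H.m13, H.m20, H.m21, H.m22, H.m23, H.m30, H.m31, H.m32, H.m33]
    module
  have m01 : k 0 * k 1 = k 2 := by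
    rw [k0, k1, k2]
    simp only [mul_add, add_mul, smul_mul_assoc, mul_smul_comm, H.m00, H.m01, H.m02, H.m03, H.m10,
      H.m11, H.m12, H.m13, H.m20, H.m21, H.m22, H.m23, H.m30, H.m31, H.m32, H.m33]
    module
  have m10 : k 1 * k 0 = k 2 := by
    rw [k0, k1, k2]
    simp only [mul_add, add_mul, smul_mul_assoc, mul_smul_comm, H.m00, H.m01, H.m02, H.m03, H.m10,
      H.m11, H.m12, H.m13, H.m20, H.m21, H.m22, H.m23, H.m30, H.m31, H.m32, H.m33]
    module
  have m02 : k 0 * k 2 = k 3 := by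
    rw [k0, k2, k3]
    simp only [mul_add, add_mul, smul_mul_assoc, mul_smul_comm, H.m00, H.m01, H.m02, H.m03, H.m10,
      H.m11, H.m12, H.m13, H.m20, H.m21, H.m22, H.m23, H.m30, H.m31, H.m32, H.m33]
    module
  have m20 : k 2 * k 0 = k 3 := by
    rw [k0, k2, k3]
    simp only [mul_add, add_mul, smul_mul_assoc, mul_smul_comm, H.m00, H.m01, H.m02, H.m03, H.m10,
      H.m11, H.m12, H.m13, H.m20, H.m21, H.m22, H.m23, H.m30, H.m31, H.m32, H.m33]
    module
  have m11 : k 1 * k 1 = k 3 := by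
    rw [k1, k3]
    simp only [mul_add, add_mul, smul_mul_assoc, mul_smul_comm, H.m00, H.m01, H.m02, H.m03, H.m10,
      H.m11, H.m12, H.m13, H.m20, H.m21, H.m22, H.m23, H.m30, H.m31, H.m32, H.m33]
    module
  have m12 : k 1 * k 2 = 0 := by
    rw [k1, k2]
    simp only [mul_add, add_mul, smul_mul_assoc, mul_smul_comm, H.m00, H.m01, H.m02, H.m03, H.m10,
      H.m11, H.m12, H.m13, H.m20, H.m21, H.m22, H.m23, H.m30, H.m31, H.m32, H.m33]
    module
  have m21 : k 2 * k 1 = 0 := by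
    rw [k1, k2]
    simp only [mul_add, add_mul, smul_mul_assoc, mul_smul_comm, H.m00, H.m01, H.m02, H.m03, H.m10,
      H.m11, H.m12, H.m13, H.m20, H.m21, H.m22, H.m23, H.m30, H.m31, H.m32, H.m33]
    module
  have m22 : k 2 * k 2 = 0 := by
    rw [k2]
    simp only [mul_add, add_mul, smul_mul_assoc, mul_smul_comm, H.m00, H.m01, H.m02, H.m03, H.m10,
      H.m11, H.m12, H.m13, H.m20, H.m21, H.m22, H.m23, H.m30, H.m31, H.m32, H.m33]
    module
  have m03 : k 0 * k 3 = 0 := by
    rw [k0, k3]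
    simp only [mul_add, add_mul, smul_mul_assoc, mul_smul_comm, H.m03, H.m13, H.m23, H.m33]
    module
  have m13 : k 1 * k 3 = 0 := by
    rw [k1, k3]
    simp only [mul_add, add_mul, smul_mul_assoc, mul_smul_comm, H.m03, H.m13, H.m23, H.m33]
    module
  have m23 : k 2 * k 3 = 0 := by
    rw [k2, k3]
    simp only [mul_add, add_mul, smul_mul_assoc, mul_smul_comm, H.m03, H.m13, H.m23, H.m33]
    module
  have m33 : k 3 * k 3 = 0 := by
    rw [k3]
    simp only [mul_add, add_mul, smul_mul_assoc, mul_smul_comm, H.m03, H.m13, H.m23, H.m33]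
    module
  have m30 : k 3 * k 0 = 0 := by
    rw [k0, k3]
    simp only [mul_add, add_mul, smul_mul_assoc, mul_smul_comm, H.m30, H.m31, H.m32, H.m33]
    module
  have m31 : k 3 * k 1 = 0 := by
    rw [k1, k3]
    simp only [mul_add, add_mul, smul_mul_assoc, mul_smul_comm, H.m30, H.m31, H.m32, H.m33]
    module
  have m32 : k 3 * k 2 = 0 := by
    rw [k2, k3]
    simp only [mul_add, add_mul, smul_mul_assoc, mul_smul_comm, H.m30, H.m31, H.m32, H.m33]
    module
  have p1 : (p : ℤ) • k 1 = (l'.val : ℤ) • k 2 + (m'.val : ℤ) • k 3 := by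
    rw [← m00, ← smul_mul_assoc, hp0, add_mul, add_mul, smul_mul_assoc, smul_mul_assoc,
      smul_mul_assoc, m10, m20, m30, smul_zero, add_zero]
  have p2 : (p : ℤ) • k 2 = (l'.val : ℤ) • k 3 := by
    rw [← m10, ← smul_mul_assoc, p1, add_mul, smul_mul_assoc, smul_mul_assoc, m20, m30, smul_zero,
      add_zero]
  have p3 : (p : ℤ) • k 3 = 0 := by
    rw [k3, smul_comm, H.p3, smul_zero]
  refine of_rel ⟨hp0, p1, p2, p3, m00, m01, m02, m03, m10, m11, m12, m13, m20, m21, m22, m23, m30,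
    m31, m32, m33⟩ ?_
  have q3 : (p ^ 1 : ℤ) • g 3 = 0 := by rw [pow_one]; exact H.p3
  have q2 : (p ^ 2 : ℤ) • g 2 = 0 := by
    rw [pow_two, mul_smul, H.p2, smul_comm, H.p3, smul_zero]
  have q3' : (p ^ 2 : ℤ) • g 3 = 0 := by
    rw [pow_two, mul_smul, H.p3, smul_zero]
  have q1 : (p ^ 3 : ℤ) • g 1 = 0 := by
    rw [pow_succ, mul_smul, H.p1, smul_add, smul_comm _ (l.val : ℤ), q2, smul_comm _ (m.val : ℤ), q3',
      smul_zero, smul_zero, add_zero]
  have q2' : (p ^ 3 : ℤ) • g 2 = 0 := by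
    rw [pow_succ', mul_smul, q2, smul_zero]
  have q3'' : (p ^ 3 : ℤ) • g 3 = 0 := by
    rw [pow_succ', mul_smul, q3', smul_zero]
  have q0 : (p ^ 4 : ℤ) • g 0 = 0 := by
    rw [pow_succ, mul_smul, H.p0, smul_add, smul_add, smul_comm _ (l.val : ℤ), q1,
      smul_comm _ (m.val : ℤ), q2', smul_comm _ (n.val : ℤ), q3'',
      smul_zero, smul_zero, smul_zero, add_zero, add_zero]
  have mem : ∀ i, k i ∈ AddSubgroup.closure (Set.range k) := fun i =>
    AddSubgroup.subset_closure ⟨i, rfl⟩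
  have r3 : g 3 ∈ AddSubgroup.closure (Set.range k) := by
    refine mem_of_unit q3 (u := U * U * U * U) ?_ (mem 3)
    push_cast
    exact mul_ne_zero (mul_ne_zero (mul_ne_zero hU hU) hU) hU
  have r2 : g 2 ∈ AddSubgroup.closure (Set.range k) := by
    refine mem_of_unit q2 (u := U * U * U) ?_ ?_
    · push_cast
      exact mul_ne_zero (mul_ne_zero hU hU) hU
    · have : (U * U * U) • g 2 = k 2 - (3 * U * U * a) • g 3 := by rw [k2]; abel
      rw [this]
      exact AddSubgroup.sub_mem _ (mem 2) (AddSubgroup.zsmul_mem _ r3 _)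
  have r1 : g 1 ∈ AddSubgroup.closure (Set.range k) := by
    refine mem_of_unit q1 (u := U * U) ?_ ?_
    · push_cast
      exact mul_ne_zero hU hU
    · have : (U * U) • g 1 = k 1 - ((2 * U * a) • g 2 + (2 * U * b + a * a) • g 3) := by
        rw [k1]; abel
      rw [this]
      exact AddSubgroup.sub_mem _ (mem 1) (AddSubgroup.add_mem _ (AddSubgroup.zsmul_mem _ r2 _)
        (AddSubgroup.zsmul_mem _ r3 _))
  have r0 : g 0 ∈ AddSubgroup.closure (Set.range k) := by
    refine mem_of_unit q0 (u := U) hU ?_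
    have : U • g 0 = k 0 - (a • g 1 + b • g 2) := by rw [k0]; abel
    rw [this]
    exact AddSubgroup.sub_mem _ (mem 0) (AddSubgroup.add_mem _ (AddSubgroup.zsmul_mem _ r1 _)
        (AddSubgroup.zsmul_mem _ r2 _))
  rw [eq_top_iff, ← hg, AddSubgroup.closure_le]
  rintro _ ⟨i, rfl⟩
  fin_cases i
  · exact r0
  · exact r1
  · exact r2
  · exact r3

theorem change0 {m n : ZMod p} (h : HasTab p R (tab5a 0 m n)) (u a : ZMod p) (hu : u ≠ 0)
    (m' n' : ZMod p) (e1 : m' * u ^ 2 = m) (e2 : n' * u ^ 4 = u * n - 2 * a * m) :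
    HasTab p R (tab5a 0 m' n') := by
  obtain ⟨g, hg, hP, hM⟩ := h
  have H := rel hP hM
  obtain ⟨U, rfl⟩ : ∃ U : ℤ, (U : ZMod p) = u := ⟨u.val, valc u⟩
  obtain ⟨a, rfl⟩ : ∃ U : ℤ, (U : ZMod p) = a := ⟨a.val, valc a⟩
  have H0 := H.p0
  have H1 := H.p1
  have H2 := H.p2
  rw [ZMod.val_zero] at H0 H1 H2
  simp only [Nat.cast_zero, zero_smul, zero_add] at H0 H1 H2
  refine change H hg U a 0 hu 0 m' n' ?_
  rw [ZMod.val_zero, smul_add, smul_add, smul_comm (p : ℤ) U, smul_comm (p : ℤ) a, zero_smul ℤ (g 2),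
    smul_zero, H0, H1]
  simp only [Nat.cast_zero, zero_smul, zero_add, add_zero]
  have f1 : (U * m.val) • g 2 = ((m'.val : ℤ) * (U * U * U)) • g 2 := by
    refine zs_eq H2 ?_
    push_cast
    rw [ZMod.natCast_zmod_val, ZMod.natCast_zmod_val, ← e1]
    ring
  have f2 : (U * n.val + a * m.val) • g 3 = ((m'.val : ℤ) * (3 * U * U * a) +
      n'.val * (U * U * U * U)) • g 3 := by
    refine zs_eq H.p3 ?_
    push_cast
    rw [ZMod.natCast_zmod_val, ZMod.natCast_zmod_val, ZMod.natCast_zmod_val,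
      ZMod.natCast_zmod_val, ← e1]
    rw [← e1] at e2
    linear_combination -e2
  calc U • ((m.val : ℤ) • g 2 + (n.val : ℤ) • g 3) + a • ((m.val : ℤ) • g 3)
      = (U * m.val) • g 2 + (U * n.val + a * m.val) • g 3 := by module
    _ = _ := by rw [f1, f2]; module

end R5A

open S5A R5A H7Com in
theorem r5a (hk : KREStmt) : R5AStmt.{u} := by
  intro p _ R _ l m n h
  by_cases hl : l = 0
  · subst hl
    by_cases hm : m = 0
    · subst hm
      by_cases hn : n = 0
      · subst hn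
        exact ⟨0, 0, 0, NF5a.a4 0 (Or.inl rfl), h⟩
      · obtain ⟨s, t, hs, ht, he⟩ := hk p 3 n hn
        exact ⟨0, 0, s, NF5a.a4 s (Or.inr hs), change0 h t 0 ht 0 s (by ring)
          (by rw [he]; ring)⟩
    · obtain ⟨s, t, hs, ht, he⟩ := hk p 2 m hm
      by_cases h2 : (2 : ZMod p) = 0
      · have hp : p = 2 := by
          have h3 : ((2 : ℕ) : ZMod p) = 0 := by exact_mod_cast h2
          rw [ZMod.natCast_eq_zero_iff] at h3
          exact (Nat.prime_dvd_prime_iff_eq Fact.out Nat.prime_two).1 h3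
        have hs1 : s = 1 := (bit_cases s hp).resolve_left hs.1
        have ht1 : t = 1 := (bit_cases t hp).resolve_left ht
        subst hs1
        subst ht1
        have hm1 : m = 1 := by rw [he]; ring
        subst hm1
        rcases bit_cases n hp with hn | hn
        · subst hn
          exact ⟨0, 1, 0, NF5a.a2 1 hs, h⟩
        · subst hn
          exact ⟨0, 1, 1, NF5a.a3 hp, h⟩
      · refine ⟨0, s, 0, NF5a.a2 s hs, change0 h t (t * n / (2 * m)) ht s 0 he.symm ?_⟩
        field_simp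
        ring
  · obtain ⟨g, hg, hP, hM⟩ := h
    have H := rel hP hM
    refine ⟨1, 0, 0, NF5a.a1, change H hg (l.val : ℤ) m.val n.val (by rw [valc]; exact hl) 1 0 0 ?_⟩
    have h1 : (((1 : ZMod p).val : ℕ) : ℤ) = 1 := by
      rw [ZMod.val_one]; rfl
    rw [h1, ZMod.val_zero]
    simp only [Nat.cast_zero, zero_smul, add_zero, one_smul]
    rw [smul_add, smul_add, smul_comm (p : ℤ), smul_comm (p : ℤ) (m.val : ℤ),
      smul_comm (p : ℤ) (n.val : ℤ), H.p0, H.p1, H.p2]
    module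

end Pool.NR
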