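import Pool.Agent.H7.NR.S5I

set_option linter.unusedVariables false
set_option linter.unusedSimpArgs false
set_option linter.unusedSectionVars false

namespace Pool.NR

universe u

namespace R5I

open H7Com S5I

variable {p : ℕ} [Fact p.Prime] {R : Type u} [NonUnitalRing R]

theorem of_rel {α β γ : ZMod p} {g : Fin 4 → R} (H : Rel α β γ g)
    (hg : AddSubgroup.closure (Set.range g) = ⊤) : HasTab p R (tab5i α β γ) := by
  refine ⟨g, hg, ?_, ?_⟩
  · intro i
    have h0 := H.p0
    have h1 := H.p1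
    have h2 := H.p2
    have h3 := H.p3
    rw [natCast_zsmul] at h0 h1 h2 h3
    rw [natCast_zsmul] at h1 h2
    fin_cases i
    · simpa [tab5i, Fin.sum_univ_four] using h0
    · simpa [tab5i, Fin.sum_univ_four] using h1
    · simpa [tab5i, Fin.sum_univ_four] using h2
    · simpa [tab5i, Fin.sum_univ_four] using h3
  · intro i j
    have h01 := H.m01
    have h02 := H.m02
    have h10 := H.m10
    have h20 := H.m20
    rw [natCast_zsmul] at h01 h02 h10 h20
    fin_cases i <;> fin_cases j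
    · simpa [tab5i, Fin.sum_univ_four] using H.m00
    · simpa [tab5i, Fin.sum_univ_four] using h01
    · simpa [tab5i, Fin.sum_univ_four] using h02
    · simpa [tab5i, Fin.sum_univ_four] using H.m03
    · simpa [tab5i, Fin.sum_univ_four] using h10
    · simpa [tab5i, Fin.sum_univ_four] using H.m11
    · simpa [tab5i, Fin.sum_univ_four] using H.m12
    · simpa [tab5i, Fin.sum_univ_four] using H.m13
    · simpa [tab5i, Fin.sum_univ_four] using h20
    · simpa [tab5i, Fin.sum_univ_four] using H.m21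
    · simpa [tab5i, Fin.sum_univ_four] using H.m22
    · simpa [tab5i, Fin.sum_univ_four] using H.m23
    · simpa [tab5i, Fin.sum_univ_four] using H.m30
    · simpa [tab5i, Fin.sum_univ_four] using H.m31
    · simpa [tab5i, Fin.sum_univ_four] using H.m32
    · simpa [tab5i, Fin.sum_univ_four] using H.m33

theorem scale {α β γ : ZMod p} (h : HasTab p R (tab5i α β γ)) (u r α' β' γ' : ZMod p)
    (hu : u ≠ 0) (hr : r ≠ 0) (ea : α' * r = u ^ 3 * α) (eb : β' * r = u ^ 2 * β)
    (ec : γ' * r = u * γ) : HasTab p R (tab5i α' β' γ') := by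
  obtain ⟨g, hg, hP, hM⟩ := h
  have H := rel hP hM
  obtain ⟨U, rfl⟩ : ∃ U : ℤ, (U : ZMod p) = u := ⟨u.val, valc u⟩
  obtain ⟨r, rfl⟩ : ∃ U : ℤ, (U : ZMod p) = r := ⟨r.val, valc r⟩
  have ea' : (α'.val : ℤ) • (r • g 3) = (U * U * U * α.val) • g 3 := by
    rw [← mul_smul]
    refine zs_eq H.p3 ?_
    push_cast
    rw [ZMod.natCast_zmod_val, ZMod.natCast_zmod_val, ea]
    ring
  have eb' : (β'.val : ℤ) • (r • g 3) = (U * U * β.val) • g 3 := by
    rw [← mul_smul]
    refine zs_eq H.p3 ?_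
    push_cast
    rw [ZMod.natCast_zmod_val, ZMod.natCast_zmod_val, eb]
    ring
  have ec' : (γ'.val : ℤ) • (r • g 3) = (U * γ.val) • g 3 := by
    rw [← mul_smul]
    refine zs_eq H.p3 ?_
    push_cast
    rw [ZMod.natCast_zmod_val, ZMod.natCast_zmod_val, ec]
  let k : Fin 4 → R := ![U • g 0, U • g 1, (U * U) • g 2, r • g 3]
  have k0 : k 0 = U • g 0 := rfl
  have k1 : k 1 = U • g 1 := rfl
  have k2 : k 2 = (U * U) • g 2 := rfl
  have k3 : k 3 = r • g 3 := rfl
  have K : Rel α' β' γ' k := by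
    constructor <;> simp only [k0, k1, k2, k3, ea', eb', ec']
    · rw [smul_comm, H.p0]
    · rw [smul_comm, H.p1, smul_smul]
    · rw [smul_comm, H.p2, smul_smul]
    · rw [smul_comm, H.p3, smul_zero]
    all_goals
      simp only [smul_mul_assoc, mul_smul_comm, H.m00, H.m01, H.m02, H.m03, H.m10,
        H.m11, H.m12, H.m13, H.m20, H.m21, H.m22, H.m23, H.m30, H.m31, H.m32, H.m33, smul_zero]
    all_goals
      module
  refine of_rel K ?_
  rw [eq_top_iff, ← hg, AddSubgroup.closure_le]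
  have q3 : (p ^ 1 : ℤ) • g 3 = 0 := by rw [pow_one]; exact H.p3
  have q2 : (p ^ 2 : ℤ) • g 2 = 0 := by
    rw [pow_two, mul_smul, H.p2, smul_comm, H.p3, smul_zero]
  have q1 : (p ^ 2 : ℤ) • g 1 = 0 := by
    rw [pow_two, mul_smul, H.p1, smul_comm, H.p3, smul_zero]
  have q0 : (p ^ 3 : ℤ) • g 0 = 0 := by
    rw [pow_succ, mul_smul, H.p0, q1]
  have mem : ∀ i, k i ∈ AddSubgroup.closure (Set.range k) := fun i =>
    AddSubgroup.subset_closure ⟨i, rfl⟩
  rintro _ ⟨i, rfl⟩
  fin_cases i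
  · exact mem_of_unit q0 hu (mem 0)
  · exact mem_of_unit q1 hu (mem 1)
  · refine mem_of_unit q2 (u := U * U) ?_ (mem 2)
    push_cast
    exact mul_ne_zero hu hu
  · exact mem_of_unit q3 hr (mem 3)

end R5I

open R5I in
theorem r5i (hk : KREStmt) : R5IStmt.{u} := by
  intro p _ R _ α β γ hn h
  by_cases hγ : γ = 0
  · subst hγ
    by_cases hβ : β = 0
    · subst hβ
      have hα : α ≠ 0 := by
        rcases hn with h | h | h
        · exact h
        · exact absurd rfl h
        · exact absurd rfl h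
      exact ⟨1, 0, 0, NF5i.a4, scale h 1 α 1 0 0 one_ne_zero hα (by ring) (by ring) (by ring)⟩
    · by_cases hα : α = 0
      · subst hα
        exact ⟨0, 1, 0, NF5i.a3 0 (Or.inl rfl), scale h 1 β 0 1 0 one_ne_zero hβ (by ring) (by ring)
          (by ring)⟩
      · refine ⟨1, 1, 0, NF5i.a3 1 (Or.inr rfl), scale h (β / α) ((β / α) ^ 2 * β) 1 1 0
          (div_ne_zero hβ hα) (mul_ne_zero (pow_ne_zero 2 (div_ne_zero hβ hα)) hβ) ?_ (by ring)
          (by ring)⟩
        field_simp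
  · by_cases hβ : β = 0
    · subst hβ
      by_cases hα : α = 0
      · subst hα
        exact ⟨0, 0, 1, NF5i.a2 0 (Or.inl rfl), scale h 1 γ 0 0 1 one_ne_zero hγ (by ring) (by ring)
          (by ring)⟩
      · obtain ⟨s, t, hs, ht, he⟩ := hk p 2 (α / γ) (div_ne_zero hα hγ)
        refine ⟨s, 0, 1, NF5i.a2 s (Or.inr hs), scale h t⁻¹ (t⁻¹ * γ) s 0 1
          (inv_ne_zero ht) (mul_ne_zero (inv_ne_zero ht) hγ) ?_ (by ring) (by ring)⟩
        have e2 : α = s * t ^ 2 * γ := by rw [← he]; field_simp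
        rw [e2]
        field_simp
    · refine ⟨_, 1, 1, NF5i.a1 ((γ / β) ^ 3 * α / (γ ^ 2 / β)), scale h (γ / β) (γ ^ 2 / β) _ 1 1
        (div_ne_zero hγ hβ) (div_ne_zero (pow_ne_zero 2 hγ) hβ) ?_ ?_ ?_⟩
      · rw [div_mul_cancel₀ _ (div_ne_zero (pow_ne_zero 2 hγ) hβ)]
      · field_simp
      · field_simp

end Pool.NR
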