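import Pool.Agent.H7.NR.Com

set_option linter.unusedVariables false
set_option linter.unusedSimpArgs false
set_option linter.unusedSectionVars false

namespace Pool.NR

universe u

namespace S4A

open H7Com

variable {p : ℕ} [Fact p.Prime] {R : Type u} [NonUnitalRing R]

theorem up (L : ZMod (p ^ 2)) (b c d : ZMod p) : TabUp (tab4a L b c d) := by
  intro i j hij
  fin_cases i <;> fin_cases j <;> first | rfl | (exact absurd hij (by decide))

structure Rel (L : ZMod (p ^ 2)) (b c d : ZMod p) (g : Fin 4 → R) : Prop where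
  p0 : (p : ℤ) • g 0 = g 2
  p1 : (p : ℤ) • g 1 = 0
  p2 : (p : ℤ) • g 2 = g 3
  p3 : (p : ℤ) • g 3 = 0
  m00 : g 0 * g 0 = (L.val : ℤ) • g 2
  m01 : g 0 * g 1 = (b.val : ℤ) • g 3
  m02 : g 0 * g 2 = (L.val : ℤ) • g 3
  m03 : g 0 * g 3 = 0
  m10 : g 1 * g 0 = (c.val : ℤ) • g 3
  m11 : g 1 * g 1 = (d.val : ℤ) • g 3
  m12 : g 1 * g 2 = 0
  m13 : g 1 * g 3 = 0
  m20 : g 2 * g 0 = (L.val : ℤ) • g 3
  m21 : g 2 * g 1 = 0
  m22 : g 2 * g 2 = 0
  m23 : g 2 * g 3 = 0
  m30 : g 3 * g 0 = 0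
  m31 : g 3 * g 1 = 0
  m32 : g 3 * g 2 = 0
  m33 : g 3 * g 3 = 0

theorem rel {L : ZMod (p ^ 2)} {b c d : ZMod p} {g : Fin 4 → R}
    (hP : ∀ i, p • g i = ∑ j, (tab4a L b c d).P i j • g j)
    (hM : ∀ i j, g i * g j = ∑ k, (tab4a L b c d).M i j k • g k) : Rel L b c d g where
  p0 := by rw [natCast_zsmul]; simpa [tab4a, Fin.sum_univ_four] using hP 0
  p1 := by rw [natCast_zsmul]; simpa [tab4a, Fin.sum_univ_four] using hP 1
  p2 := by rw [natCast_zsmul]; simpa [tab4a, Fin.sum_univ_four] using hP 2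
  p3 := by rw [natCast_zsmul]; simpa [tab4a, Fin.sum_univ_four] using hP 3
  m00 := by rw [natCast_zsmul]; simpa [tab4a, Fin.sum_univ_four] using hM 0 0
  m01 := by rw [natCast_zsmul]; simpa [tab4a, Fin.sum_univ_four] using hM 0 1
  m02 := by rw [natCast_zsmul]; simpa [tab4a, Fin.sum_univ_four] using hM 0 2
  m03 := by simpa [tab4a, Fin.sum_univ_four] using hM 0 3
  m10 := by rw [natCast_zsmul]; simpa [tab4a, Fin.sum_univ_four] using hM 1 0
  m11 := by rw [natCast_zsmul]; simpa [tab4a, Fin.sum_univ_four] using hM 1 1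
  m12 := by simpa [tab4a, Fin.sum_univ_four] using hM 1 2
  m13 := by simpa [tab4a, Fin.sum_univ_four] using hM 1 3
  m20 := by rw [natCast_zsmul]; simpa [tab4a, Fin.sum_univ_four] using hM 2 0
  m21 := by simpa [tab4a, Fin.sum_univ_four] using hM 2 1
  m22 := by simpa [tab4a, Fin.sum_univ_four] using hM 2 2
  m23 := by simpa [tab4a, Fin.sum_univ_four] using hM 2 3
  m30 := by simpa [tab4a, Fin.sum_univ_four] using hM 3 0
  m31 := by simpa [tab4a, Fin.sum_univ_four] using hM 3 1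
  m32 := by simpa [tab4a, Fin.sum_univ_four] using hM 3 2
  m33 := by simpa [tab4a, Fin.sum_univ_four] using hM 3 3

theorem cast_eq_iff {a b : ℤ} : (a : ZMod p) = b ↔ ∃ c : ℤ, a - b = p * c := by
  rw [← sub_eq_zero, ← Int.cast_sub, ZMod.intCast_zmod_eq_zero_iff_dvd]
  rfl

/-- the equations between the parameters -/
theorem eqs (hb : BASStmt.{u}) {L L' : ZMod (p ^ 2)} {b c d b' c' d' : ZMod p}
    (hc : Nat.card R = p ^ 4)
    (h : HasTab p R (tab4a L b c d)) (h' : HasTab p R (tab4a L' b' c' d')) :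
    ∃ U k v : ℤ, (U : ZMod p) ≠ 0 ∧ (v : ZMod p) ≠ 0 ∧
      (∃ q : ℤ, U * U * L.val - L'.val * U + p * (U * k * (b.val + c.val) + k * k * d.val) =
        p ^ 2 * q) ∧
      b' * U = v * (U * b + k * d) ∧ c' * U = v * (U * c + k * d) ∧ d' * U = v ^ 2 * d := by
  obtain ⟨g, hg, hP, hM⟩ := h
  obtain ⟨k, hk, hP', hM'⟩ := h'
  have H := rel hP hM
  have H' := rel hP' hM'
  obtain ⟨U, a, hx⟩ : ∃ U a : ℤ, k 0 = U • g 0 + a • g 1 := by
    obtain ⟨A, B, C, D, hx⟩ := rep hg (k 0)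
    refine ⟨A + C * p + D * (p * p), B, ?_⟩
    rw [hx, ← H.p2, ← H.p0]
    module
  obtain ⟨v, r, hy⟩ : ∃ v r : ℤ, k 1 = v • g 1 + r • g 3 := by
    obtain ⟨A, B, C, D, hy⟩ := rep hg (k 1)
    have e := H'.p1
    rw [hy, smul_add, smul_add, smul_add, smul_comm (p : ℤ) A, smul_comm (p : ℤ) B,
      smul_comm (p : ℤ) C, smul_comm (p : ℤ) D, H.p0, H.p1, H.p2, H.p3] at e
    have e' : A • g 2 + C • g 3 = 0 := by rw [← e]; module
    obtain ⟨c2, c3, f1, f2⟩ := lead2 hb hc (up L b c d) hg hP e'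
    have f2' : C = p * c3 - c2 := by
      have h : C = p * c3 - c2 * ((1 : ℕ) : ℤ) := f2
      rw [h]; simp
    refine ⟨B, c3 + D, ?_⟩
    rw [hy, f1, f2']
    have e2 : ((p : ℤ) * c2) • g 0 = c2 • g 2 := by rw [mul_comm, mul_smul, H.p0]
    have e3 : ((p : ℤ) * c3 - c2) • g 2 = c3 • g 3 - c2 • g 2 := by
      rw [sub_smul, mul_comm (p : ℤ) c3, mul_smul, H.p2]
    rw [e2, e3]
    module
  have h2 : k 2 = U • g 2 := by
    rw [← H'.p0, hx, smul_add, smul_comm (p : ℤ) U, smul_comm (p : ℤ) a, H.p0, H.p1, smul_zero,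
      add_zero]
  have h3 : k 3 = U • g 3 := by rw [← H'.p2, h2, smul_comm, H.p2]
  have hU : (U : ZMod p) ≠ 0 := by
    intro h0
    have : k 3 = 0 := by
      rw [h3, ← zero_smul ℤ (g 3)]
      exact zs_eq H.p3 (by push_cast; rw [h0])
    have h1 : (1 : ℤ) • k 3 = 0 := by rw [this, smul_zero]
    have := lead3 hb hc (up L' b' c' d') hk hP' h1
    simp at this
  have hv : (v : ZMod p) ≠ 0 := by
    intro h0
    obtain ⟨A, B, C, D, hr⟩ := rep hk (g 1)
    rw [hx, hy, h2, h3] at hr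
    have e : (A * U) • g 0 + (A * a + B * v - 1) • g 1 + (C * U) • g 2 + (B * r + D * U) • g 3
        = 0 := by
      rw [← sub_eq_zero] at hr
      have : (A * U) • g 0 + (A * a + B * v - 1) • g 1 + (C * U) • g 2 + (B * r + D * U) • g 3
        = -(g 1 - (A • (U • g 0 + a • g 1) + B • (v • g 1 + r • g 3) + C • U • g 2 +
          D • U • g 3)) := by module
      rw [this, hr, neg_zero]
    obtain ⟨c0, c1, c2, c3, f0, f1, f2, f3⟩ := bas hb hc (up L b c d) hg hP e
    have f1' : A * a + B * v - 1 = p * c1 := by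
      have h : A * a + B * v - 1 = p * c1 - c0 * ((0 : ℕ) : ℤ) := f1
      rw [h]; simp
    have g0 : (A : ZMod p) * U = 0 := by
      have : ((A * U : ℤ) : ZMod p) = 0 := by rw [f0]; push_cast; simp
      push_cast at this
      exact this
    have gA : (A : ZMod p) = 0 := by
      rcases mul_eq_zero.1 g0 with h | h
      · exact h
      · exact absurd h hU
    have g1 : (A : ZMod p) * a + B * v - 1 = 0 := by
      have : ((A * a + B * v - 1 : ℤ) : ZMod p) = 0 := by rw [f1']; push_cast; simp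
      push_cast at this
      exact this
    rw [gA, h0] at g1
    simp at g1
  refine ⟨U, a, v, hU, hv, ?_, ?_, ?_, ?_⟩
  · have e := H'.m00
    rw [h2, hx] at e
    simp only [mul_add, add_mul, smul_mul_assoc, mul_smul_comm, H.m00, H.m01, H.m10, H.m11] at e
    rw [← sub_eq_zero] at e
    have e' : (U * U * L.val - L'.val * U) • g 2 + (U * a * (b.val + c.val) + a * a * d.val) • g 3
        = 0 := by
      rw [← e]
      module
    obtain ⟨c2, c3, f1, f2⟩ := lead2 hb hc (up L b c d) hg hP e'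
    have f2' : U * a * (b.val + c.val) + a * a * d.val = p * c3 - c2 := by
      have h : U * a * (b.val + c.val) + a * a * d.val = p * c3 - c2 * ((1 : ℕ) : ℤ) := f2
      rw [h]; simp
    exact ⟨c3, by rw [f1, f2']; ring⟩
  · have e := H'.m01
    rw [h3, hx, hy] at e
    simp only [mul_add, add_mul, smul_mul_assoc, mul_smul_comm, H.m00, H.m01, H.m10, H.m11,
      H.m03, H.m13] at e
    have e' : (b'.val * U : ℤ) • g 3 = (v * (U * b.val + a * d.val)) • g 3 := by
      rw [mul_smul, ← e]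
      module
    have := eq3 hb hc (up L b c d) hg hP e'
    push_cast at this
    rwa [ZMod.natCast_zmod_val, ZMod.natCast_zmod_val, ZMod.natCast_zmod_val] at this
  · have e := H'.m10
    rw [h3, hx, hy] at e
    simp only [mul_add, add_mul, smul_mul_assoc, mul_smul_comm, H.m00, H.m01, H.m10, H.m11,
      H.m30, H.m31] at e
    have e' : (c'.val * U : ℤ) • g 3 = (v * (U * c.val + a * d.val)) • g 3 := by
      rw [mul_smul, ← e]
      module
    have := eq3 hb hc (up L b c d) hg hP e'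
    push_cast at this
    rwa [ZMod.natCast_zmod_val, ZMod.natCast_zmod_val, ZMod.natCast_zmod_val] at this
  · have e := H'.m11
    rw [h3, hy] at e
    simp only [mul_add, add_mul, smul_mul_assoc, mul_smul_comm, H.m11, H.m13,
      H.m31, H.m33] at e
    have e' : (d'.val * U : ℤ) • g 3 = (v ^ 2 * d.val) • g 3 := by
      rw [mul_smul, ← e]
      module
    have := eq3 hb hc (up L b c d) hg hP e'
    push_cast at this
    rwa [ZMod.natCast_zmod_val, ZMod.natCast_zmod_val] at this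


theorem bit_eq {x x' u : ZMod p} (hu : u ≠ 0) (h : Bit x) (h' : Bit x') (e : x' = u * x) :
    x = x' := by
  rcases h with h | h <;> rcases h' with h' | h' <;> subst h <;> subst h'
  · rfl
  · exact absurd (by simpa using e) (one_ne_zero (α := ZMod p))
  · exact absurd (by simpa using e.symm) hu
  · rfl

theorem pt_eq {b c b' c' v : ZMod p} (hv : v ≠ 0) (h : Pt b c) (h' : Pt b' c') (e : b' = v * b)
    (f : c' = v * c) : b = b' ∧ c = c' := by
  rcases h with h | ⟨h, h1⟩ <;> rcases h' with h' | ⟨h', h1'⟩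
  · subst h
    subst h'
    rw [mul_one] at e
    rw [← e, one_mul] at f
    exact ⟨rfl, f.symm⟩
  · subst h
    subst h'
    exact absurd (by simpa using e.symm) hv
  · subst h
    subst h'
    exact absurd (by simpa using e) (one_ne_zero (α := ZMod p))
  · rw [h, h', h1, h1']
    exact ⟨rfl, rfl⟩

/-- normal forms with `L = 1` -/
def NA (b c d : ZMod p) : Prop :=
  (b = 0 ∧ c = 1 ∧ d ≠ 0) ∨ (b = 0 ∧ c = 0 ∧ KRep p 2 d) ∨ (Pt0 b c ∧ d = 0)

/-- normal forms with `L = p a` -/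
def NB (a b c d : ZMod p) : Prop :=
  (b = 0 ∧ ((a = 1 ∧ c = 1 ∧ d ≠ 0) ∨ (a = 0 ∧ c = 1 ∧ d = 1) ∨ (Sq0 a ∧ c = 0 ∧ d = 1))) ∨
  (d = 0 ∧ ((a = 0 ∧ Pt b c ∧ b + c ≠ 0) ∨ (Bit a ∧ Bit b ∧ c = -b)))

theorem split {L : ZMod (p ^ 2)} {b c d : ZMod p} (h : NF4a L b c d) :
    (L = 1 ∧ NA b c d) ∨ ∃ a : ZMod p, L = ((p * a.val : ℕ) : ZMod (p ^ 2)) ∧ NB a b c d := by
  have z1 : (0 : ZMod (p ^ 2)) = ((p * (0 : ZMod p).val : ℕ) : ZMod (p ^ 2)) := by
    rw [ZMod.val_zero]; simp
  have o1 : (p : ZMod (p ^ 2)) = ((p * (1 : ZMod p).val : ℕ) : ZMod (p ^ 2)) := by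
    haveI : Fact (1 < p) := ⟨(Fact.out : p.Prime).one_lt⟩
    rw [ZMod.val_one, mul_one]
  cases h with
  | a1 _ hd => exact Or.inl ⟨rfl, Or.inl ⟨rfl, rfl, hd⟩⟩
  | a2 _ hd => exact Or.inl ⟨rfl, Or.inr (Or.inl ⟨rfl, rfl, hd⟩)⟩
  | a3 _ _ hp => exact Or.inl ⟨rfl, Or.inr (Or.inr ⟨hp, rfl⟩)⟩
  | b1 _ hd => exact Or.inr ⟨1, o1, Or.inl ⟨rfl, Or.inl ⟨rfl, rfl, hd⟩⟩⟩
  | b2 => exact Or.inr ⟨0, z1, Or.inl ⟨rfl, Or.inr (Or.inl ⟨rfl, rfl, rfl⟩)⟩⟩
  | b3 a ha => exact Or.inr ⟨a, rfl, Or.inl ⟨rfl, Or.inr (Or.inr ⟨ha, rfl, rfl⟩)⟩⟩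
  | b4 _ _ hp hs => exact Or.inr ⟨0, z1, Or.inr ⟨rfl, Or.inl ⟨rfl, hp, hs⟩⟩⟩
  | b5 _ hb => exact Or.inr ⟨0, z1, Or.inr ⟨rfl, Or.inr ⟨Or.inl rfl, hb, rfl⟩⟩⟩
  | b6 _ hb => exact Or.inr ⟨1, o1, Or.inr ⟨rfl, Or.inr ⟨Or.inr rfl, hb, rfl⟩⟩⟩

theorem na_eq (hk : KRUStmt) {k v b c d b' c' d' : ZMod p} (hv : v ≠ 0) (h : NA b c d)
    (h' : NA b' c' d') (e1 : b' = v * (b + k * d)) (e2 : c' = v * (c + k * d))
    (e3 : d' = v ^ 2 * d) : b = b' ∧ c = c' ∧ d = d' := by
  have k0 : b = 0 → b' = 0 → d ≠ 0 → k = 0 := by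
    intro h1 h2 h3
    rw [h1, h2, zero_add] at e1
    rcases mul_eq_zero.1 e1.symm with h | h
    · exact absurd h hv
    · rcases mul_eq_zero.1 h with h | h
      · exact h
      · exact absurd h h3
  rcases h with ⟨hb, hc, hd⟩ | ⟨hb, hc, hd⟩ | ⟨hp, hd⟩
  · rcases h' with ⟨hb', hc', hd'⟩ | ⟨hb', hc', hd'⟩ | ⟨hp', hd'⟩
    · have := k0 hb hb' hd
      subst this
      rw [hc, hc'] at e2
      have hv1 : v = 1 := by rw [e2]; ring
      rw [hv1] at e3
      exact ⟨by rw [hb, hb'], by rw [hc, hc'], by rw [e3]; ring⟩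
    · have := k0 hb hb' hd
      subst this
      rw [hc, hc'] at e2
      exact absurd (by rw [e2]; ring) hv.symm
    · rw [hd'] at e3
      exact absurd e3.symm (mul_ne_zero (pow_ne_zero 2 hv) hd)
  · rcases h' with ⟨hb', hc', hd'⟩ | ⟨hb', hc', hd'⟩ | ⟨hp', hd'⟩
    · have := k0 hb hb' hd.1
      subst this
      rw [hc, hc'] at e2
      exact absurd (by rw [e2]; ring) (one_ne_zero (α := ZMod p))
    · exact ⟨by rw [hb, hb'], by rw [hc, hc'],
        hk p 2 d d' v hd hd' hv (by rw [e3]; ring)⟩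
    · rw [hd'] at e3
      exact absurd e3.symm (mul_ne_zero (pow_ne_zero 2 hv) hd.1)
  · rw [hd, mul_zero] at e3
    rw [hd, mul_zero, add_zero] at e1 e2
    rcases h' with ⟨hb', hc', hd'⟩ | ⟨hb', hc', hd'⟩ | ⟨hp', hd'⟩
    · exact absurd e3 hd'
    · exact absurd e3 hd'.1
    · rcases hp with ⟨h1, h2⟩ | hp
      · rw [h1, mul_zero] at e1
        rw [h2, mul_zero] at e2
        exact ⟨by rw [h1, e1], by rw [h2, e2], by rw [hd, hd']⟩
      · rcases hp' with ⟨h1, h2⟩ | hp'
        · rw [h1] at e1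
          rw [h2] at e2
          have f1 : b = 0 := by
            rcases mul_eq_zero.1 e1.symm with h | h
            · exact absurd h hv
            · exact h
          have f2 : c = 0 := by
            rcases mul_eq_zero.1 e2.symm with h | h
            · exact absurd h hv
            · exact h
          exact ⟨by rw [h1, f1], by rw [h2, f2], by rw [hd, hd']⟩
        · obtain ⟨f1, f2⟩ := pt_eq hv hp hp' e1 e2
          exact ⟨f1, f2, by rw [hd, hd']⟩

theorem nb_eq (hk : KRUStmt) {U k v a b c d a' b' c' d' : ZMod p} (hU : U ≠ 0) (hv : v ≠ 0)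
    (h : NB a b c d) (h' : NB a' b' c' d')
    (e0 : a' * U = U ^ 2 * a + U * k * (b + c) + k ^ 2 * d)
    (e1 : b' * U = v * (U * b + k * d)) (e2 : c' * U = v * (U * c + k * d))
    (e3 : d' * U = v ^ 2 * d) : a = a' ∧ b = b' ∧ c = c' ∧ d = d' := by
  rcases h with ⟨hb, h⟩ | ⟨hd, h⟩
  · have hd : d ≠ 0 := by
      rcases h with ⟨_, _, h⟩ | ⟨_, _, h⟩ | ⟨_, _, h⟩
      · exact h
      · rw [h]; exact one_ne_zero
      · rw [h]; exact one_ne_zero
    rcases h' with ⟨hb', h'⟩ | ⟨hd', h'⟩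
    · have k0 : k = 0 := by
        rw [hb, hb', mul_zero, zero_mul, zero_add] at e1
        rcases mul_eq_zero.1 e1.symm with h | h
        · exact absurd h hv
        · rcases mul_eq_zero.1 h with h | h
          · exact h
          · exact absurd h hd
      subst k0
      have f0 : a' = U * a := mul_right_cancel₀ hU (by rw [e0]; ring)
      have f2 : c' = v * c := mul_right_cancel₀ hU (by rw [e2]; ring)
      rcases h with ⟨h1, h2, h3⟩ | ⟨h1, h2, h3⟩ | ⟨h1, h2, h3⟩
      · rw [h2, mul_one] at f2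
        rw [h1, mul_one] at f0
        rcases h' with ⟨h1', h2', h3'⟩ | ⟨h1', h2', h3'⟩ | ⟨h1', h2', h3'⟩
        · have hv1 : v = 1 := by rw [← f2, h2']
          have hU1 : U = 1 := by rw [← f0, h1']
          rw [hv1, hU1] at e3
          refine ⟨by rw [h1, h1'], by rw [hb, hb'], by rw [h2, h2'], ?_⟩
          simpa using e3.symm
        · rw [h1'] at f0
          exact absurd f0.symm hU
        · rw [h2'] at f2
          exact absurd f2.symm hv
      · rw [h2, mul_one] at f2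
        rw [h1, mul_zero] at f0
        rcases h' with ⟨h1', h2', h3'⟩ | ⟨h1', h2', h3'⟩ | ⟨h1', h2', h3'⟩
        · rw [h1'] at f0
          exact absurd f0 one_ne_zero
        · exact ⟨by rw [h1, h1'], by rw [hb, hb'], by rw [h2, h2'], by rw [h3, h3']⟩
        · rw [h2'] at f2
          exact absurd f2.symm hv
      · rw [h2, mul_zero] at f2
        rcases h' with ⟨h1', h2', h3'⟩ | ⟨h1', h2', h3'⟩ | ⟨h1', h2', h3'⟩
        · rw [h2'] at f2
          exact absurd f2 one_ne_zero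
        · rw [h2'] at f2
          exact absurd f2 one_ne_zero
        · rw [h3, h3', one_mul, mul_one] at e3
          refine ⟨?_, by rw [hb, hb'], by rw [h2, h2'], by rw [h3, h3']⟩
          rcases h1 with h1 | h1
          · rw [h1, mul_zero] at f0
            rw [h1, f0]
          · rcases h1' with h1' | h1'
            · rw [h1'] at f0
              exact absurd f0.symm (mul_ne_zero hU h1.1)
            · exact hk p 2 a a' v h1 h1' hv (by rw [f0, e3]; ring)
    · rw [hd', zero_mul] at e3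
      exact absurd e3.symm (mul_ne_zero (pow_ne_zero 2 hv) hd)
  · rcases h' with ⟨hb', h'⟩ | ⟨hd', h'⟩
    · have hd' : d' ≠ 0 := by
        rcases h' with ⟨_, _, h⟩ | ⟨_, _, h⟩ | ⟨_, _, h⟩
        · exact h
        · rw [h]; exact one_ne_zero
        · rw [h]; exact one_ne_zero
      rw [hd, mul_zero] at e3
      exact absurd e3 (mul_ne_zero hd' hU)
    · subst hd
      subst hd'
      have f1 : b' = v * b := mul_right_cancel₀ hU (by rw [e1]; ring)
      have f2 : c' = v * c := mul_right_cancel₀ hU (by rw [e2]; ring)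
      rcases h with ⟨h1, h2, h3⟩ | ⟨h1, h2, h3⟩
      · rcases h' with ⟨h1', h2', h3'⟩ | ⟨h1', h2', h3'⟩
        · obtain ⟨g1, g2⟩ := pt_eq hv h2 h2' f1 f2
          exact ⟨by rw [h1, h1'], g1, g2, rfl⟩
        · have : v * (b + c) = 0 := by
            rw [mul_add, ← f1, ← f2, h3']; ring
          exact absurd this (mul_ne_zero hv h3)
      · rcases h' with ⟨h1', h2', h3'⟩ | ⟨h1', h2', h3'⟩
        · exact absurd (by rw [f1, f2, h3]; ring) h3'
        · have g1 := bit_eq hv h2 h2' f1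
          have f0 : a' = U * a := mul_right_cancel₀ hU (by rw [e0, h3]; ring)
          have g0 := bit_eq hU h1 h1' f0
          exact ⟨g0, g1, by rw [h3, h3', g1], rfl⟩

theorem val_pa (a : ZMod p) : ((p * a.val : ℕ) : ZMod (p ^ 2)).val = p * a.val := by
  apply ZMod.val_natCast_of_lt
  rw [pow_two]
  exact Nat.mul_lt_mul_of_pos_left (ZMod.val_lt a) (Fact.out : p.Prime).pos

theorem val_o : (1 : ZMod (p ^ 2)).val = 1 := by
  haveI : Fact (1 < p ^ 2) := ⟨Nat.one_lt_pow two_ne_zero (Fact.out : p.Prime).one_lt⟩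
  exact ZMod.val_one (p ^ 2)

end S4A

open S4A H7Com in
theorem s4a (hb : BASStmt.{u}) (hk : KRUStmt) : S4AStmt.{u} := by
  intro p _ R _ L L' b c d b' c' d' hc h h' hn hn'
  obtain ⟨U, k, v, hU, hv, ⟨q, e0⟩, e1, e2, e3⟩ := eqs hb hc h h'
  have pz : ((p : ℕ) : ZMod p) = 0 := ZMod.natCast_self p
  rcases split hn with ⟨hL, hN⟩ | ⟨a, hL, hN⟩
  · subst hL
    rw [val_o] at e0
    rcases split hn' with ⟨hL', hN'⟩ | ⟨a', hL', hN'⟩
    · subst hL'
      rw [val_o] at e0
      have f0 : (U : ZMod p) = 1 := by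
        have := congrArg (Int.cast : ℤ → ZMod p) e0
        push_cast at this
        rw [pz] at this
        exact mul_left_cancel₀ hU (by linear_combination this)
      rw [f0] at e1 e2 e3
      obtain ⟨g1, g2, g3⟩ := na_eq hk hv hN hN' (k := (k : ZMod p)) (v := (v : ZMod p))
        (by simpa using e1) (by simpa using e2) (by simpa using e3)
      exact ⟨rfl, g1, g2, g3⟩
    · subst hL'
      rw [val_pa] at e0
      have := congrArg (Int.cast : ℤ → ZMod p) e0
      push_cast at this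
      rw [pz] at this
      exact absurd (by linear_combination this) (mul_ne_zero hU hU)
  · subst hL
    rw [val_pa] at e0
    rcases split hn' with ⟨hL', hN'⟩ | ⟨a', hL', hN'⟩
    · subst hL'
      rw [val_o] at e0
      have := congrArg (Int.cast : ℤ → ZMod p) e0
      push_cast at this
      rw [pz] at this
      exact absurd (by linear_combination -this) hU
    · subst hL'
      rw [val_pa] at e0
      have e0' : (a'.val : ℤ) * U - (U * U * a.val + (U * k * (b.val + c.val) + k * k * d.val)) =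
          p * (-q) := by
        apply mul_left_cancel₀ (ppos (p := p))
        push_cast at e0
        linear_combination -e0
      have e0'' := cast_eq_iff.2 ⟨_, e0'⟩
      push_cast at e0''
      rw [ZMod.natCast_zmod_val, ZMod.natCast_zmod_val, ZMod.natCast_zmod_val,
        ZMod.natCast_zmod_val, ZMod.natCast_zmod_val] at e0''
      obtain ⟨g0, g1, g2, g3⟩ := nb_eq hk hU hv hN hN' (k := (k : ZMod p))
        (by rw [e0'']; ring) e1 e2 e3
      exact ⟨by rw [g0], g1, g2, g3⟩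

end Pool.NR
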