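import Pool.Agent.H7.NR.Com

set_option linter.unusedVariables false
set_option linter.unusedSimpArgs false
set_option linter.unusedSectionVars false

namespace Pool.NR

universe u

namespace S5A

open H7Com

variable {p : ℕ} [Fact p.Prime] {R : Type u} [NonUnitalRing R]

theorem up (l m n : ZMod p) : TabUp (tab5a l m n) := by
  intro i j hij
  fin_cases i <;> fin_cases j <;> first | rfl | (exact absurd hij (by decide))

structure Rel (l m n : ZMod p) (g : Fin 4 → R) : Prop where
  p0 : (p : ℤ) • g 0 = (l.val : ℤ) • g 1 + (m.val : ℤ) • g 2 + (n.val : ℤ) • g 3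
  p1 : (p : ℤ) • g 1 = (l.val : ℤ) • g 2 + (m.val : ℤ) • g 3
  p2 : (p : ℤ) • g 2 = (l.val : ℤ) • g 3
  p3 : (p : ℤ) • g 3 = 0
  m00 : g 0 * g 0 = g 1
  m01 : g 0 * g 1 = g 2
  m02 : g 0 * g 2 = g 3
  m03 : g 0 * g 3 = 0
  m10 : g 1 * g 0 = g 2
  m11 : g 1 * g 1 = g 3
  m12 : g 1 * g 2 = 0
  m13 : g 1 * g 3 = 0
  m20 : g 2 * g 0 = g 3
  m21 : g 2 * g 1 = 0
  m22 : g 2 * g 2 = 0
  m23 : g 2 * g 3 = 0
  m30 : g 3 * g 0 = 0
  m31 : g 3 * g 1 = 0
  m32 : g 3 * g 2 = 0
  m33 : g 3 * g 3 = 0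

theorem rel {l m n : ZMod p} {g : Fin 4 → R}
    (hP : ∀ i, p • g i = ∑ j, (tab5a l m n).P i j • g j)
    (hM : ∀ i j, g i * g j = ∑ k, (tab5a l m n).M i j k • g k) : Rel l m n g where
  p0 := by
    rw [natCast_zsmul, natCast_zsmul, natCast_zsmul, natCast_zsmul]
    simpa [tab5a, Fin.sum_univ_four] using hP 0
  p1 := by
    rw [natCast_zsmul, natCast_zsmul, natCast_zsmul]
    simpa [tab5a, Fin.sum_univ_four] using hP 1
  p2 := by rw [natCast_zsmul, natCast_zsmul]; simpa [tab5a, Fin.sum_univ_four] using hP 2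
  p3 := by rw [natCast_zsmul]; simpa [tab5a, Fin.sum_univ_four] using hP 3
  m00 := by simpa [tab5a, Fin.sum_univ_four] using hM 0 0
  m01 := by simpa [tab5a, Fin.sum_univ_four] using hM 0 1
  m02 := by simpa [tab5a, Fin.sum_univ_four] using hM 0 2
  m03 := by simpa [tab5a, Fin.sum_univ_four] using hM 0 3
  m10 := by simpa [tab5a, Fin.sum_univ_four] using hM 1 0
  m11 := by simpa [tab5a, Fin.sum_univ_four] using hM 1 1
  m12 := by simpa [tab5a, Fin.sum_univ_four] using hM 1 2
  m13 := by simpa [tab5a, Fin.sum_univ_four] using hM 1 3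
  m20 := by simpa [tab5a, Fin.sum_univ_four] using hM 2 0
  m21 := by simpa [tab5a, Fin.sum_univ_four] using hM 2 1
  m22 := by simpa [tab5a, Fin.sum_univ_four] using hM 2 2
  m23 := by simpa [tab5a, Fin.sum_univ_four] using hM 2 3
  m30 := by simpa [tab5a, Fin.sum_univ_four] using hM 3 0
  m31 := by simpa [tab5a, Fin.sum_univ_four] using hM 3 1
  m32 := by simpa [tab5a, Fin.sum_univ_four] using hM 3 2
  m33 := by simpa [tab5a, Fin.sum_univ_four] using hM 3 3

theorem cast_eq_iff {a b : ℤ} : (a : ZMod p) = b ↔ ∃ c : ℤ, a - b = p * c := by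
  rw [← sub_eq_zero, ← Int.cast_sub, ZMod.intCast_zmod_eq_zero_iff_dvd]
  rfl

/-- the equations between the parameters -/
theorem eqs (hb : BASStmt.{u}) {l m n l' m' n' : ZMod p} (hc : Nat.card R = p ^ 4)
    (h : HasTab p R (tab5a l m n)) (h' : HasTab p R (tab5a l' m' n')) :
    ∃ u a : ZMod p, u ≠ 0 ∧ l' * u = l ∧
      (l = 0 → l' = 0 → m' * u ^ 2 = m ∧ n' * u ^ 4 = u * n - 2 * a * m) := by
  obtain ⟨g, hg, hP, hM⟩ := h
  obtain ⟨k, hk, hP', hM'⟩ := h'
  have H := rel hP hM
  have H' := rel hP' hM'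
  obtain ⟨U, a, b, c, hx⟩ := rep hg (k 0)
  have h1 : k 1 = (U * U) • g 1 + (2 * U * a) • g 2 + (2 * U * b + a * a) • g 3 := by
    rw [← H'.m00, hx]
    simp only [mul_add, add_mul, smul_mul_assoc, mul_smul_comm, H.m00, H.m01, H.m02, H.m03, H.m10,
      H.m11, H.m12, H.m13, H.m20, H.m21, H.m22, H.m23, H.m30, H.m31, H.m32, H.m33]
    module
  have h2 : k 2 = (U * U * U) • g 2 + (3 * U * U * a) • g 3 := by
    rw [← H'.m01, hx, h1]
    simp only [mul_add, add_mul, smul_mul_assoc, mul_smul_comm, H.m00, H.m01, H.m02, H.m03, H.m10,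
      H.m11, H.m12, H.m13, H.m20, H.m21, H.m22, H.m23, H.m30, H.m31, H.m32, H.m33]
    module
  have h3 : k 3 = (U * U * U * U) • g 3 := by
    rw [← H'.m02, hx, h2]
    simp only [mul_add, add_mul, smul_mul_assoc, mul_smul_comm, H.m00, H.m01, H.m02, H.m03, H.m10,
      H.m11, H.m12, H.m13, H.m20, H.m21, H.m22, H.m23, H.m30, H.m31, H.m32, H.m33]
    module
  have hU : (U : ZMod p) ≠ 0 := by
    intro h0
    have : k 3 = 0 := by
      rw [h3, ← zero_smul ℤ (g 3)]
      exact zs_eq H.p3 (by push_cast; rw [h0]; ring)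
    have h1 : (1 : ℤ) • k 3 = 0 := by rw [this, smul_zero]
    have := lead3 hb hc (up l' m' n') hk hP' h1
    simp at this
  have e := H'.p0
  have e' : (U * l.val - l'.val * (U * U)) • g 1 +
      (U * m.val + a * l.val - l'.val * (2 * U * a) - m'.val * (U * U * U)) • g 2 +
      (U * n.val + a * m.val + b * l.val - l'.val * (2 * U * b + a * a) -
        m'.val * (3 * U * U * a) - n'.val * (U * U * U * U)) • g 3 = 0 := by
    rw [hx, h1, h2, h3, smul_add, smul_add, smul_add, smul_comm (p : ℤ) U, smul_comm (p : ℤ) a,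
      smul_comm (p : ℤ) b, smul_comm (p : ℤ) c, H.p0, H.p1, H.p2, H.p3] at e
    rw [← sub_eq_zero] at e
    rw [← e]
    module
  obtain ⟨c1, c2, c3, f1, f2, f3⟩ := lead1 hb hc (up l m n) hg hP e'
  refine ⟨(U : ZMod p), (a : ZMod p), hU, ?_, ?_⟩
  · have : (U : ZMod p) * l = l' * (U * U) := by
      have := (cast_eq_iff (p := p)).2 ⟨c1, f1⟩
      push_cast at this
      rwa [ZMod.natCast_zmod_val, ZMod.natCast_zmod_val] at this
    exact mul_left_cancel₀ hU (by rw [this]; ring)
  · intro hl hl'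
    subst hl
    subst hl'
    rw [ZMod.val_zero] at f1 f2 f3
    have e1 : c1 = 0 := by
      have : (p : ℤ) * c1 = 0 := by rw [← f1]; simp
      rcases mul_eq_zero.1 this with h | h
      · exact absurd h ppos
      · exact h
    subst e1
    have f2' : U * m.val - m'.val * (U * U * U) = p * c2 := by
      have h : (U * (m.val : ℤ) + a * ((0 : ℕ) : ℤ) - ((0 : ℕ) : ℤ) * (2 * U * a) -
        m'.val * (U * U * U)) = p * c2 - 0 * _ := f2
      simpa using h
    have f3' : U * n.val + a * m.val - m'.val * (3 * U * U * a) - n'.val * (U * U * U * U) =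
        p * c3 := by
      have e23 : (((tab5a 0 m n).P 2 3 : ℕ) : ℤ) = 0 := by
        show (((0 : ZMod p).val : ℕ) : ℤ) = 0
        rw [ZMod.val_zero]; rfl
      rw [e23] at f3
      simpa using f3
    have g2 : (U : ZMod p) * m = m' * (U * U * U) := by
      have := (cast_eq_iff (p := p)).2 ⟨c2, f2'⟩
      push_cast at this
      rwa [ZMod.natCast_zmod_val, ZMod.natCast_zmod_val] at this
    have g3 : (U : ZMod p) * n + a * m - m' * (3 * U * U * a) = n' * (U * U * U * U) := by
      have := (cast_eq_iff (p := p)).2 ⟨c3, f3'⟩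
      push_cast at this
      rwa [ZMod.natCast_zmod_val, ZMod.natCast_zmod_val, ZMod.natCast_zmod_val,
        ZMod.natCast_zmod_val] at this
    have g2' : m' * (U : ZMod p) ^ 2 = m := mul_left_cancel₀ hU (by rw [g2]; ring)
    refine ⟨g2', ?_⟩
    rw [← g2'] at g3 ⊢
    linear_combination -g3

end S5A

open S5A in
theorem s5a (hb : BASStmt.{u}) (hk : KRUStmt) : S5AStmt.{u} := by
  intro p _ R _ l m n l' m' n' hc h h' hn hn'
  obtain ⟨u, a, hu, e1, e2⟩ := eqs hb hc h h'
  have k2 : ∀ s s' : ZMod p, KRep p 2 s → KRep p 2 s' → s' * u ^ 2 = s → s = s' := by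
    intro s s' hs hs' he
    exact (hk p 2 s' s u hs' hs hu he.symm).symm
  have k3 : ∀ s s' : ZMod p, KRep p 3 s → KRep p 3 s' → s' * u ^ 3 = s → s = s' := by
    intro s s' hs hs' he
    exact (hk p 3 s' s u hs' hs hu he.symm).symm
  have hl : l = 0 ↔ l' = 0 := by
    rw [← e1]
    constructor
    · intro h
      rcases mul_eq_zero.1 h with h | h
      · exact h
      · exact absurd h hu
    · intro h
      rw [h, zero_mul]
  have two : p = 2 → (2 : ZMod p) = 0 := by
    intro h2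
    have h : ((2 : ℕ) : ZMod p) = 0 := (ZMod.natCast_eq_zero_iff 2 p).2 (by rw [h2])
    exact_mod_cast h
  cases hn with
  | a1 =>
    cases hn' with
    | a1 => exact ⟨rfl, rfl, rfl⟩
    | a2 => exact absurd (hl.2 rfl) one_ne_zero
    | a3 => exact absurd (hl.2 rfl) one_ne_zero
    | a4 => exact absurd (hl.2 rfl) one_ne_zero
  | a2 _ hm =>
    cases hn' with
    | a1 => exact absurd (hl.1 rfl) one_ne_zero
    | a2 _ hm' => exact ⟨rfl, k2 _ _ hm hm' (e2 rfl rfl).1, rfl⟩
    | a3 hp =>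
      obtain ⟨f1, f2⟩ := e2 rfl rfl
      rw [two hp] at f2
      exact absurd (by simpa using f2) (pow_ne_zero 4 hu)
    | a4 => exact absurd (by simpa using (e2 rfl rfl).1.symm) hm.1
  | a3 hp =>
    cases hn' with
    | a1 => exact absurd (hl.1 rfl) one_ne_zero
    | a2 _ hm' =>
      obtain ⟨f1, f2⟩ := e2 rfl rfl
      rw [two hp] at f2
      exact absurd (by simpa using f2.symm) hu
    | a3 => exact ⟨rfl, rfl, rfl⟩
    | a4 => exact absurd (by simpa using (e2 rfl rfl).1.symm) (one_ne_zero (α := ZMod p))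
  | a4 _ hn =>
    cases hn' with
    | a1 => exact absurd (hl.1 rfl) one_ne_zero
    | a2 _ hm' =>
      exact absurd (by simpa using (e2 rfl rfl).1) (mul_ne_zero hm'.1 (pow_ne_zero 2 hu))
    | a3 =>
      exact absurd (by simpa using (e2 rfl rfl).1) (pow_ne_zero 2 hu)
    | a4 _ hn' =>
      obtain ⟨f1, f2⟩ := e2 rfl rfl
      have f3 : n' * u ^ 3 = n := mul_left_cancel₀ hu (by linear_combination f2)
      refine ⟨rfl, rfl, ?_⟩
      rcases hn with hn | hn
      · rw [hn] at f3 ⊢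
        rcases mul_eq_zero.1 f3 with h | h
        · exact h.symm
        · exact absurd h (pow_ne_zero 3 hu)
      · rcases hn' with hn' | hn'
        · rw [hn', zero_mul] at f3
          exact absurd f3.symm hn.1
        · exact k3 _ _ hn hn' f3

end Pool.NR
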