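import Pool.Agent.H7.NR.Com

set_option linter.unusedVariables false
set_option linter.unusedSimpArgs false
set_option linter.unusedSectionVars false

namespace Pool.NR

universe u

namespace S5B

open H7Com

variable {p : ℕ} [Fact p.Prime] {R : Type u} [NonUnitalRing R]

theorem up (c d : ZMod p) : TabUp (tab5b c d) := by
  intro i j hij
  fin_cases i <;> fin_cases j <;> first | rfl | (exact absurd hij (by decide))

structure Rel (c d : ZMod p) (g : Fin 4 → R) : Prop where
  p0 : (p : ℤ) • g 0 = g 1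
  p1 : (p : ℤ) • g 1 = g 2
  p2 : (p : ℤ) • g 2 = g 3
  p3 : (p : ℤ) • g 3 = 0
  m00 : g 0 * g 0 = (c.val : ℤ) • g 2 + (d.val : ℤ) • g 3

theorem rel {c d : ZMod p} {g : Fin 4 → R}
    (hP : ∀ i, p • g i = ∑ j, (tab5b c d).P i j • g j)
    (hM : ∀ i j, g i * g j = ∑ k, (tab5b c d).M i j k • g k) : Rel c d g where
  p0 := by rw [natCast_zsmul]; simpa [tab5b, Fin.sum_univ_four] using hP 0
  p1 := by rw [natCast_zsmul]; simpa [tab5b, Fin.sum_univ_four] using hP 1
  p2 := by rw [natCast_zsmul]; simpa [tab5b, Fin.sum_univ_four] using hP 2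
  p3 := by rw [natCast_zsmul]; simpa [tab5b, Fin.sum_univ_four] using hP 3
  m00 := by rw [natCast_zsmul, natCast_zsmul]; simpa [tab5b, Fin.sum_univ_four] using hM 0 0

theorem cast_eq_iff {a b : ℤ} : (a : ZMod p) = b ↔ ∃ c : ℤ, a - b = p * c := by
  rw [← sub_eq_zero, ← Int.cast_sub, ZMod.intCast_zmod_eq_zero_iff_dvd]
  rfl

/-- the equations between the parameters -/
theorem eqs (hb : BASStmt.{u}) {c d c' d' : ZMod p} (hc : Nat.card R = p ^ 4)
    (h : HasTab p R (tab5b c d)) (h' : HasTab p R (tab5b c' d')) :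
    ∃ u : ZMod p, u ≠ 0 ∧ c' = c * u ∧ (c = 0 → c' = 0 → d' = d * u) := by
  obtain ⟨g, hg, hP, hM⟩ := h
  obtain ⟨k, hk, hP', hM'⟩ := h'
  have H := rel hP hM
  have H' := rel hP' hM'
  obtain ⟨U, a, b, e, hx⟩ := rep hg (k 0)
  obtain ⟨N, hN⟩ : ∃ N : ℤ, k 0 = N • g 0 := by
    refine ⟨U + a * p + b * (p * p) + e * (p * p * p), ?_⟩
    rw [hx, ← H.p2, ← H.p1, ← H.p0]
    module
  have h1 : k 1 = N • g 1 := by rw [← H'.p0, hN, smul_comm, H.p0]
  have h2 : k 2 = N • g 2 := by rw [← H'.p1, h1, smul_comm, H.p1]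
  have h3 : k 3 = N • g 3 := by rw [← H'.p2, h2, smul_comm, H.p2]
  have hU : (N : ZMod p) ≠ 0 := by
    intro h0
    have : k 3 = 0 := by
      rw [h3, ← zero_smul ℤ (g 3)]
      exact zs_eq H.p3 (by push_cast; rw [h0])
    have h1 : (1 : ℤ) • k 3 = 0 := by rw [this, smul_zero]
    have := lead3 hb hc (up c' d') hk hP' h1
    simp at this
  have e' := H'.m00
  rw [hN, h2, h3, smul_mul_assoc, mul_smul_comm, H.m00, ← sub_eq_zero] at e'
  have e'' : (N * N * c.val - c'.val * N) • g 2 + (N * N * d.val - d'.val * N) • g 3 = 0 := by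
    rw [← e']
    module
  obtain ⟨c2, c3, f1, f2⟩ := lead2 hb hc (up c d) hg hP e''
  have g1 : (N : ZMod p) * N * c = c' * N := by
    have := (cast_eq_iff (p := p)).2 ⟨c2, f1⟩
    push_cast at this
    rwa [ZMod.natCast_zmod_val, ZMod.natCast_zmod_val] at this
  refine ⟨(N : ZMod p), hU, mul_right_cancel₀ hU (by rw [← g1]; ring), ?_⟩
  intro h0 h0'
  subst h0
  subst h0'
  rw [ZMod.val_zero] at f1
  have e2 : c2 = 0 := by
    have : (p : ℤ) * c2 = 0 := by rw [← f1]; simp
    rcases mul_eq_zero.1 this with h | h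
    · exact absurd h ppos
    · exact h
  subst e2
  have f2' : N * N * d.val - d'.val * N = p * c3 := by rw [f2]; ring
  have g2 : (N : ZMod p) * N * d = d' * N := by
    have := (cast_eq_iff (p := p)).2 ⟨c3, f2'⟩
    push_cast at this
    rwa [ZMod.natCast_zmod_val, ZMod.natCast_zmod_val] at this
  exact mul_right_cancel₀ hU (by rw [← g2]; ring)

end S5B

open S5B in
theorem s5b (hb : BASStmt.{u}) : S5BStmt.{u} := by
  intro p _ R _ c d c' d' hc h h' hn hn'
  obtain ⟨u, hu, e1, e2⟩ := eqs hb hc h h'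
  cases hn with
  | a1 =>
    cases hn' with
    | a1 => exact ⟨rfl, rfl⟩
    | a2 => exact absurd (by simpa using e1.symm) hu
    | a3 => exact absurd (by simpa using e1.symm) hu
  | a2 =>
    cases hn' with
    | a1 => exact absurd (by simpa using e1) (one_ne_zero (α := ZMod p))
    | a2 => exact ⟨rfl, rfl⟩
    | a3 => exact absurd (by simpa using (e2 rfl rfl).symm) hu
  | a3 =>
    cases hn' with
    | a1 => exact absurd (by simpa using e1) (one_ne_zero (α := ZMod p))
    | a2 => exact absurd (by simpa using e2 rfl rfl) (one_ne_zero (α := ZMod p))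
    | a3 => exact ⟨rfl, rfl⟩

end Pool.NR
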