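import Pool.Agent.H7.NR.Com

set_option linter.unusedVariables false
set_option linter.unusedSimpArgs false
set_option linter.unusedSectionVars false

namespace Pool.NR

universe u

namespace S5I

open H7Com

variable {p : ℕ} [Fact p.Prime] {R : Type u} [NonUnitalRing R]

theorem up (α β γ : ZMod p) : TabUp (tab5i α β γ) := by
  intro i j hij
  fin_cases i <;> fin_cases j <;> first | rfl | (exact absurd hij (by decide))

structure Rel (α β γ : ZMod p) (g : Fin 4 → R) : Prop where
  p0 : (p : ℤ) • g 0 = g 1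
  p1 : (p : ℤ) • g 1 = (γ.val : ℤ) • g 3
  p2 : (p : ℤ) • g 2 = (β.val : ℤ) • g 3
  p3 : (p : ℤ) • g 3 = 0
  m00 : g 0 * g 0 = g 2
  m01 : g 0 * g 1 = (β.val : ℤ) • g 3
  m02 : g 0 * g 2 = (α.val : ℤ) • g 3
  m03 : g 0 * g 3 = 0
  m10 : g 1 * g 0 = (β.val : ℤ) • g 3
  m11 : g 1 * g 1 = 0
  m12 : g 1 * g 2 = 0
  m13 : g 1 * g 3 = 0
  m20 : g 2 * g 0 = (α.val : ℤ) • g 3
  m21 : g 2 * g 1 = 0
  m22 : g 2 * g 2 = 0
  m23 : g 2 * g 3 = 0
  m30 : g 3 * g 0 = 0
  m31 : g 3 * g 1 = 0
  m32 : g 3 * g 2 = 0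
  m33 : g 3 * g 3 = 0

theorem rel {α β γ : ZMod p} {g : Fin 4 → R}
    (hP : ∀ i, p • g i = ∑ j, (tab5i α β γ).P i j • g j)
    (hM : ∀ i j, g i * g j = ∑ k, (tab5i α β γ).M i j k • g k) : Rel α β γ g where
  p0 := by rw [natCast_zsmul]; simpa [tab5i, Fin.sum_univ_four] using hP 0
  p1 := by rw [natCast_zsmul, natCast_zsmul]; simpa [tab5i, Fin.sum_univ_four] using hP 1
  p2 := by rw [natCast_zsmul, natCast_zsmul]; simpa [tab5i, Fin.sum_univ_four] using hP 2
  p3 := by rw [natCast_zsmul]; simpa [tab5i, Fin.sum_univ_four] using hP 3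
  m00 := by simpa [tab5i, Fin.sum_univ_four] using hM 0 0
  m01 := by rw [natCast_zsmul]; simpa [tab5i, Fin.sum_univ_four] using hM 0 1
  m02 := by rw [natCast_zsmul]; simpa [tab5i, Fin.sum_univ_four] using hM 0 2
  m03 := by simpa [tab5i, Fin.sum_univ_four] using hM 0 3
  m10 := by rw [natCast_zsmul]; simpa [tab5i, Fin.sum_univ_four] using hM 1 0
  m11 := by simpa [tab5i, Fin.sum_univ_four] using hM 1 1
  m12 := by simpa [tab5i, Fin.sum_univ_four] using hM 1 2
  m13 := by simpa [tab5i, Fin.sum_univ_four] using hM 1 3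
  m20 := by rw [natCast_zsmul]; simpa [tab5i, Fin.sum_univ_four] using hM 2 0
  m21 := by simpa [tab5i, Fin.sum_univ_four] using hM 2 1
  m22 := by simpa [tab5i, Fin.sum_univ_four] using hM 2 2
  m23 := by simpa [tab5i, Fin.sum_univ_four] using hM 2 3
  m30 := by simpa [tab5i, Fin.sum_univ_four] using hM 3 0
  m31 := by simpa [tab5i, Fin.sum_univ_four] using hM 3 1
  m32 := by simpa [tab5i, Fin.sum_univ_four] using hM 3 2
  m33 := by simpa [tab5i, Fin.sum_univ_four] using hM 3 3

/-- the equations between the parameters -/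
theorem eqs (hb : BASStmt.{u}) {α β γ α' β' γ' : ZMod p} (hc : Nat.card R = p ^ 4)
    (h : HasTab p R (tab5i α β γ)) (h' : HasTab p R (tab5i α' β' γ'))
    (hn : α' ≠ 0 ∨ β' ≠ 0 ∨ γ' ≠ 0) : ∃ u r : ZMod p, u ≠ 0 ∧ r ≠ 0 ∧
      α' * r = u ^ 3 * α ∧ β' * r = u ^ 2 * β ∧ γ' * r = u * γ := by
  obtain ⟨g, hg, hP, hM⟩ := h
  obtain ⟨k, hk, hP', hM'⟩ := h'
  have H := rel hP hM
  have H' := rel hP' hM'
  obtain ⟨U, m, n, q, hx⟩ := rep hg (k 0)
  have hv : k 1 = U • g 1 + (m * γ.val + n * β.val) • g 3 := by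
    rw [← H'.p0, hx, smul_add, smul_add, smul_add, smul_comm (p : ℤ) U, smul_comm (p : ℤ) m,
      smul_comm (p : ℤ) n, smul_comm (p : ℤ) q, H.p0, H.p1, H.p2, H.p3]
    module
  have hw : k 2 = (U * U) • g 2 + (2 * (U * m * β.val + U * n * α.val)) • g 3 := by
    rw [← H'.m00, hx]
    simp only [mul_add, add_mul, smul_mul_assoc, mul_smul_comm, H.m00, H.m01, H.m02, H.m03, H.m10,
      H.m11, H.m12, H.m13, H.m20, H.m21, H.m22, H.m23, H.m30, H.m31, H.m32, H.m33]
    module
  have e1 : (γ'.val : ℤ) • k 3 = (U * γ.val) • g 3 := by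
    rw [← H'.p1, hv, smul_add, smul_comm (p : ℤ) U, H.p1, smul_comm (p : ℤ), H.p3]
    module
  have e2 : (β'.val : ℤ) • k 3 = (U * U * β.val) • g 3 := by
    rw [← H'.p2, hw, smul_add, smul_comm (p : ℤ), H.p2, smul_comm (p : ℤ), H.p3]
    module
  have e3 : (α'.val : ℤ) • k 3 = (U * U * U * α.val) • g 3 := by
    rw [← H'.m02, hx, hw]
    simp only [mul_add, add_mul, smul_mul_assoc, mul_smul_comm, H.m00, H.m01, H.m02, H.m03, H.m10,
      H.m11, H.m12, H.m13, H.m20, H.m21, H.m22, H.m23, H.m30, H.m31, H.m32, H.m33]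
    module
  have hz : ∃ r : ℤ, k 3 = r • g 3 := by
    have key : ∀ (κ : ZMod p) (K : ℤ), κ ≠ 0 → (κ.val : ℤ) • k 3 = K • g 3 →
        ∃ r : ℤ, k 3 = r • g 3 := by
      intro κ K hκ hK
      refine ⟨((κ⁻¹).val : ℤ) * K, ?_⟩
      rw [mul_smul, ← hK, ← mul_smul]
      nth_rewrite 1 [← one_smul ℤ (k 3)]
      refine zs_eq H'.p3 ?_
      rw [Int.cast_mul, valc, valc, Int.cast_one, inv_mul_cancel₀ hκ]
    rcases hn with h | h | h
    · exact key _ _ h e3
    · exact key _ _ h e2
    · exact key _ _ h e1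
  obtain ⟨r, hr⟩ := hz
  have hr0 : (r : ZMod p) ≠ 0 := by
    intro h0
    have : k 3 = 0 := by
      rw [hr, ← zero_smul ℤ (g 3)]
      exact zs_eq H.p3 (by rw [h0]; simp)
    have h1 : (1 : ℤ) • k 3 = 0 := by rw [this, smul_zero]
    have := lead3 hb hc (up α' β' γ') hk hP' h1
    simp at this
  rw [hr, ← mul_smul] at e1 e2 e3
  have f1 := eq3 hb hc (up α β γ) hg hP e1
  have f2 := eq3 hb hc (up α β γ) hg hP e2
  have f3 := eq3 hb hc (up α β γ) hg hP e3
  simp only [Int.cast_mul, valc] at f1 f2 f3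
  refine ⟨(U : ZMod p), (r : ZMod p), ?_, hr0, ?_, ?_, f1⟩
  · intro hU
    rw [hU] at f1 f2 f3
    simp only [zero_mul, mul_eq_zero, hr0, or_false] at f1 f2 f3
    rcases hn with h | h | h
    · exact h f3
    · exact h f2
    · exact h f1
  · rw [f3]; ring
  · rw [f2]; ring

end S5I

open S5I in
theorem s5i (hb : BASStmt.{u}) (hk : KRUStmt) : S5IStmt.{u} := by
  intro p _ R _ α β γ α' β' γ' hc h h' hn hn'
  have hne : α' ≠ 0 ∨ β' ≠ 0 ∨ γ' ≠ 0 := by
    cases hn' with
    | a1 => right; right; exact one_ne_zero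
    | a2 => right; right; exact one_ne_zero
    | a3 => right; left; exact one_ne_zero
    | a4 => left; exact one_ne_zero
  obtain ⟨u, r, hu, hr, e1, e2, e3⟩ := eqs hb hc h h' hne
  have sq : ∀ a a' : ZMod p, Sq0 a → Sq0 a' → a' = u ^ 2 * a → a = a' := by
    intro a a' ha ha' he
    rcases ha with ha | ha
    · rw [he, ha, mul_zero]
    rcases ha' with ha' | ha'
    · rw [ha'] at he
      have := mul_eq_zero.1 he.symm
      rcases this with h | h
      · exact absurd (pow_eq_zero_iff (two_ne_zero)|>.1 h) hu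
      · exact absurd h ha.1
    · exact hk p 2 a a' u ha ha' hu (by rw [he]; ring)
  have bt : ∀ a a' : ZMod p, Bit a → Bit a' → a' = u * a → a = a' := by
    intro a a' ha ha' he
    rcases ha with ha | ha
    · rw [he, ha, mul_zero]
    rcases ha' with ha' | ha'
    · rw [ha', ha, mul_one] at he
      exact absurd he.symm hu
    · rw [ha, ha']
  cases hn with
  | a1 =>
    cases hn' with
    | a1 =>
      have h1 : r = u := by simpa using e3
      have h2 : r = u ^ 2 := by simpa using e2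
      have h3 : u = 1 := by
        have : u * (u - 1) = 0 := by linear_combination h1 - h2
        rcases mul_eq_zero.1 this with h | h
        · exact absurd h hu
        · exact sub_eq_zero.1 h
      subst h3
      subst h1
      simp only [one_pow, one_mul, mul_one] at e1
      exact ⟨e1.symm, rfl, rfl⟩
    | a2 => exact absurd (by simpa using e2.symm) hu
    | a3 => exact absurd (by simpa using e3.symm) hu
    | a4 => exact absurd (by simpa using e3.symm) hu
  | a2 _ hα =>
    cases hn' with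
    | a1 => exact absurd (by simpa using e2) hr
    | a2 _ hα' =>
      have h1 : r = u := by simpa using e3
      refine ⟨sq _ _ hα hα' ?_, rfl, rfl⟩
      rw [h1] at e1
      exact mul_right_cancel₀ hu (by rw [e1]; ring)
    | a3 => exact absurd (by simpa using e3.symm) hu
    | a4 => exact absurd (by simpa using e3.symm) hu
  | a3 _ hα =>
    cases hn' with
    | a1 => exact absurd (by simpa using e3) hr
    | a2 => exact absurd (by simpa using e3) hr
    | a3 _ hα' =>
      have h1 : r = u ^ 2 := by simpa using e2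
      refine ⟨bt _ _ hα hα' ?_, rfl, rfl⟩
      rw [h1] at e1
      exact mul_right_cancel₀ (pow_ne_zero 2 hu) (by rw [e1]; ring)
    | a4 => exact absurd (by simpa using e2.symm) hu
  | a4 =>
    cases hn' with
    | a1 => exact absurd (by simpa using e3) hr
    | a2 => exact absurd (by simpa using e3) hr
    | a3 => exact absurd (by simpa using e2) hr
    | a4 => exact ⟨rfl, rfl, rfl⟩

end Pool.NR
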